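import Mathlib

/-!
# MP_8cf907_al : quantum automorphism group of the complete hypergraph

The quantum automorphism group of the complete hypergraph on a finite set `V` is the classical
symmetric group of `V`; in particular it is not the quantum permutation group when `V` has at
least four elements.
-/

universe u v

namespace Pool.Agent.Results.MP_8cf907_al.CompleteHypergraph

open Finset

/-- A magic unitary: all entries are projections and all rows and columns sum to one. -/
def IsMagic {X : Type} [Fintype X] {B : Type v} [Ring B] [StarRing B] (u : Matrix X X B) : Prop :=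
  (∀ i j, star (u i j) = u i j ∧ u i j * u i j = u i j) ∧ (∀ i, ∑ j, u i j = 1) ∧
    ∀ j, ∑ i, u i j = 1

/-- The incidence matrix with entries in `B`. -/
def inc {V E : Type} [DecidableEq V] (B : Type v) [Ring B] (s : E → Finset V) : Matrix V E B :=
  Matrix.of fun a e => if a ∈ s e then 1 else 0

/-- The pair `(u, w)` satisfies the defining relations of the quantum automorphism group of the
hypergraph with source map `s` and range map `r`. -/
def IsQAut {V E : Type} [Fintype V] [DecidableEq V] [Fintype E] {B : Type v} [Ring B] [StarRing B]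
    (s r : E → Finset V) (u : Matrix V V B) (w : Matrix E E B) : Prop :=
  IsMagic u ∧ IsMagic w ∧ inc B s * w = u * inc B s ∧ inc B r * w = u * inc B r

/-- `A` together with `(u, w)` is the universal unital C⋆-algebra with the defining relations of
the quantum automorphism group. -/
def IsUniversalQAut {V E : Type} [Fintype V] [DecidableEq V] [Fintype E]
    (s r : E → Finset V) (A : Type u) [CStarAlgebra A] (u : Matrix V V A) (w : Matrix E E A) :
    Prop :=
  IsQAut s r u w ∧ ∀ (B : Type v) [CStarAlgebra B] (u' : Matrix V V B) (w' : Matrix E E B),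
    IsQAut s r u' w' →
      ∃! φ : A →⋆ₐ[ℂ] B, (∀ i j, φ (u i j) = u' i j) ∧ ∀ e f, φ (w e f) = w' e f

/-- `C` together with `u` is the algebra of the quantum permutation group: the universal unital
C⋆-algebra generated by the entries of a magic unitary. -/
def IsUniversalMagic {V : Type} [Fintype V] (C : Type u) [CStarAlgebra C] (u : Matrix V V C) :
    Prop :=
  IsMagic u ∧ ∀ (B : Type v) [CStarAlgebra B] (u' : Matrix V V B), IsMagic u' →
    ∃! φ : C →⋆ₐ[ℂ] B, ∀ i j, φ (u i j) = u' i j

/-- The source map of the complete hypergraph, whose edges are the pairs of subsets of `V`. -/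
def src (V : Type) : Finset V × Finset V → Finset V := fun e => e.1

/-- The range map of the complete hypergraph. -/
def rng (V : Type) : Finset V × Finset V → Finset V := fun e => e.2

/-- The action of a permutation on the edges of the complete hypergraph. -/
def actE {V : Type} (σ : Equiv.Perm V) (f : Finset V × Finset V) : Finset V × Finset V :=
  (f.1.map σ.toEmbedding, f.2.map σ.toEmbedding)

/-- The classical magic unitary on the symmetric group, indexed by vertices. -/
noncomputable def clV (V : Type) [DecidableEq V] : Matrix V V (Equiv.Perm V → ℂ) :=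
  fun a b σ => if σ b = a then 1 else 0

/-- The classical magic unitary on the symmetric group, indexed by edges. -/
noncomputable def clE (V : Type) [DecidableEq V] :
    Matrix (Finset V × Finset V) (Finset V × Finset V) (Equiv.Perm V → ℂ) :=
  fun e f σ => if actE σ f = e then 1 else 0

/-! ### Orthogonality -/

theorem orth {X : Type} [Fintype X] {B : Type v} [CStarAlgebra B] (p : X → B)
    (hp : ∀ i, star (p i) = p i ∧ p i * p i = p i) (h1 : ∑ i, p i = 1) {i j : X} (hij : i ≠ j) :
    p i * p j = 0 := by
  classical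
  let _ := CStarAlgebra.spectralOrder B
  let _ := CStarAlgebra.spectralOrderedRing B
  have h2 : ∑ k, p j * p k * p j = p j := by
    rw [← sum_mul, ← mul_sum, h1, mul_one, (hp j).2]
  rw [← add_sum_erase _ _ (mem_univ j), (hp j).2, (hp j).2] at h2
  have h3 : ∑ k ∈ univ.erase j, p j * p k * p j = 0 := by
    have := congrArg (fun x => x - p j) h2
    simpa using this
  have h4 : ∀ k, p j * p k * p j = star (p k * p j) * (p k * p j) := by
    intro k
    rw [star_mul, (hp k).1, (hp j).1]
    have h5 : p j * p k * (p k * p j) = p j * (p k * p k) * p j := by simp only [mul_assoc]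
    rw [h5, (hp k).2]
  have h5 : ∀ k ∈ univ.erase j, 0 ≤ p j * p k * p j := by
    intro k _
    rw [h4 k]
    exact star_mul_self_nonneg _
  have h6 := (sum_eq_zero_iff_of_nonneg h5).1 h3 i (mem_erase.2 ⟨hij, mem_univ _⟩)
  rw [h4 i] at h6
  exact CStarRing.star_mul_self_eq_zero_iff _ |>.1 h6

/-! ### The entries commute -/

section Comm

variable {V : Type} [Fintype V] [DecidableEq V] {B : Type v} [CStarAlgebra B]

theorem rel_entry {E : Type} [Fintype E] {s : E → Finset V} {u : Matrix V V B} {w : Matrix E E B}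
    (h : inc B s * w = u * inc B s) (a : V) (f : E) :
    ∑ e, (if a ∈ s e then w e f else 0) = ∑ b ∈ s f, u a b := by
  have h1 := congrFun (congrFun h a) f
  rw [Matrix.mul_apply, Matrix.mul_apply] at h1
  simp only [inc, Matrix.of_apply, ite_mul, one_mul, zero_mul, mul_ite, mul_one, mul_zero] at h1
  rw [h1, ← sum_filter, filter_mem_eq_inter, univ_inter]

theorem edge_mul {E : Type} [Fintype E] [DecidableEq E] {s : E → Finset V} {u : Matrix V V B}
    {w : Matrix E E B} (hw : IsMagic w) (h : inc B s * w = u * inc B s) (a : V) (e f : E) :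
    w e f * ∑ b ∈ s f, u a b = if a ∈ s e then w e f else 0 := by
  rw [← rel_entry h a f, mul_sum, sum_eq_single e]
  · rw [mul_ite, mul_zero, (hw.1 e f).2]
  · intro e' _ he'
    rw [mul_ite, mul_zero, orth (fun i => w i f) (fun i => hw.1 i f) (hw.2.2 f) (Ne.symm he')]
    simp
  · intro h; exact absurd (mem_univ _) h

theorem sums_commute {E : Type} [Fintype E] [DecidableEq E] {s : E → Finset V}
    {u : Matrix V V B} {w : Matrix E E B} (hw : IsMagic w) (h : inc B s * w = u * inc B s)
    (a a' : V) (f : E) :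
    (∑ b ∈ s f, u a b) * (∑ b ∈ s f, u a' b) = (∑ b ∈ s f, u a' b) * ∑ b ∈ s f, u a b := by
  rw [← rel_entry h a f, ← rel_entry h a' f]
  refine Commute.sum_left _ _ _ fun e _ => Commute.sum_right _ _ _ fun e' _ => ?_
  by_cases hee : e = e'
  · subst hee
    split_ifs
    · exact Commute.refl _
    · exact Commute.zero_right _
    · exact Commute.zero_left _
    · exact Commute.refl _
  · have h1 := orth (fun i => w i f) (fun i => hw.1 i f) (hw.2.2 f) hee
    have h2 := orth (fun i => w i f) (fun i => hw.1 i f) (hw.2.2 f) (Ne.symm hee)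
    split_ifs
    · exact h1.trans h2.symm
    · exact Commute.zero_right _
    · exact Commute.zero_left _
    · exact Commute.refl _

theorem entries_commute {u : Matrix V V B}
    {w : Matrix (Finset V × Finset V) (Finset V × Finset V) B}
    (h : IsQAut (src V) (rng V) u w) (a a' b b' : V) : u a b * u a' b' = u a' b' * u a b := by
  have hu := h.1
  by_cases hb : b = b'
  · subst hb
    by_cases ha : a = a'
    · subst ha; rfl
    · rw [orth (fun i => u i b) (fun i => hu.1 i b) (hu.2.2 b) ha,
        orth (fun i => u i b) (fun i => hu.1 i b) (hu.2.2 b) (Ne.symm ha)]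
  · by_cases ha : a = a'
    · subst ha
      rw [orth (fun i => u a i) (fun i => hu.1 a i) (hu.2.1 a) hb,
        orth (fun i => u a i) (fun i => hu.1 a i) (hu.2.1 a) (Ne.symm hb)]
    · have h1 := sums_commute h.2.1 h.2.2.1 a a' ({b, b'}, ∅)
      have hs : src V ({b, b'}, ∅) = {b, b'} := rfl
      rw [hs, sum_pair hb, sum_pair hb] at h1
      have o1 : u a b * u a' b = 0 := orth (fun i => u i b) (fun i => hu.1 i b) (hu.2.2 b) ha
      have o2 : u a b * u a b' = 0 := orth (fun i => u a i) (fun i => hu.1 a i) (hu.2.1 a) hb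
      have o3 : u a b * u a b = u a b := (hu.1 a b).2
      have h2 := congrArg (fun x => u a b * x) h1
      simp only [mul_add, add_mul] at h2
      simp only [← mul_assoc] at h2
      rw [o1, o2, o3, o1] at h2
      simp only [zero_mul, zero_add, add_zero] at h2
      -- `u a b * u a' b' = u a b * u a' b' * u a b`
      have h3 : u a b * u a' b' = u a b * u a' b' * u a b := by
        have h4 : u a b * u a' b' * u a b' = 0 := by
          rw [mul_assoc, orth (fun i => u i b') (fun i => hu.1 i b') (hu.2.2 b') (Ne.symm ha),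
            mul_zero]
        rw [h4, add_zero] at h2
        exact h2
      have h5 := congrArg star h3
      simp only [star_mul, (hu.1 a b).1, (hu.1 a' b').1] at h5
      rw [h3, h5, ← mul_assoc]

end Comm

/-! ### The commutative case -/

section CommCase

variable {V : Type} [Fintype V] [DecidableEq V] {R : Type v} [CommRing R] (U : V → V → R)

theorem mul_prodU (idem : ∀ a b, U a b * U a b = U a b)
    (col : ∀ a a' b, a ≠ a' → U a b * U a' b = 0) (a b : V) (σ : Equiv.Perm V) :
    U a b * ∏ c, U (σ c) c = if σ b = a then ∏ c, U (σ c) c else 0 := by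
  rw [← mul_prod_erase univ (fun c => U (σ c) c) (mem_univ b), ← mul_assoc]
  split_ifs with h
  · rw [h, idem]
  · rw [col a (σ b) b (Ne.symm h), zero_mul]

theorem sum_prodU (row : ∀ a b b', b ≠ b' → U a b * U a b' = 0)
    (colsum : ∀ b, ∑ a, U a b = 1) : ∑ σ : Equiv.Perm V, ∏ c, U (σ c) c = 1 := by
  have h1 : ∏ c, ∑ a, U a c = 1 := prod_eq_one fun c _ => colsum c
  rw [prod_univ_sum] at h1
  rw [← h1]
  refine sum_of_injOn (fun (σ : Equiv.Perm V) (c : V) => σ c) ?_ ?_ ?_ ?_
  · intro σ _ τ _ h
    exact Equiv.ext fun c => congrFun h c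
  · intro σ _
    simp
  · intro g _ hg
    have hninj : ¬ Function.Injective g := by
      intro hinj
      apply hg
      refine ⟨Equiv.ofBijective g (Finite.injective_iff_bijective.1 hinj), by simp, ?_⟩
      funext c
      rfl
    rw [Function.Injective] at hninj
    push Not at hninj
    obtain ⟨b, b', hbb, hne⟩ := hninj
    rw [← mul_prod_erase univ (fun c => U (g c) c) (mem_univ b),
      ← mul_prod_erase (univ.erase b) (fun c => U (g c) c)
        (mem_erase.2 ⟨Ne.symm hne, mem_univ b'⟩), ← mul_assoc]
    rw [hbb, row (g b') b b' hne, zero_mul]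
  · intro σ _
    rfl

end CommCase

section Main

variable {V : Type} [Fintype V] [DecidableEq V] {B : Type v} [CStarAlgebra B]

open scoped IsMulCommutative in
theorem exists_q {u : Matrix V V B} (hu : IsMagic u)
    (hcomm : ∀ a a' b b', u a b * u a' b' = u a' b' * u a b) :
    ∃ q : Equiv.Perm V → B, (∑ σ, q σ = 1) ∧
      ∀ a b σ, u a b * q σ = (if σ b = a then q σ else 0) ∧
        q σ * u a b = if σ b = a then q σ else 0 := by
  have hS : ∀ x ∈ Set.range (fun p : V × V => u p.1 p.2),
      ∀ y ∈ Set.range (fun p : V × V => u p.1 p.2), x * y = y * x := by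
    rintro _ ⟨p, rfl⟩ _ ⟨p', rfl⟩
    exact hcomm _ _ _ _
  have hcommS := Algebra.isMulCommutative_adjoin ℂ hS
  let S := Algebra.adjoin ℂ (Set.range (fun p : V × V => u p.1 p.2))
  let U : V → V → S := fun a b => ⟨u a b, Algebra.subset_adjoin ⟨(a, b), rfl⟩⟩
  have idem : ∀ a b, U a b * U a b = U a b := fun a b => Subtype.ext (hu.1 a b).2
  have row : ∀ a b b', b ≠ b' → U a b * U a b' = 0 := fun a b b' hb =>
    Subtype.ext (orth (fun i => u a i) (fun i => hu.1 a i) (hu.2.1 a) hb)
  have col : ∀ a a' b, a ≠ a' → U a b * U a' b = 0 := fun a a' b ha =>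
    Subtype.ext (orth (fun i => u i b) (fun i => hu.1 i b) (hu.2.2 b) ha)
  have colsum : ∀ b, ∑ a, U a b = 1 := fun b => Subtype.ext (by
    rw [AddSubmonoidClass.coe_finsetSum]
    exact hu.2.2 b)
  refine ⟨fun σ => ((∏ c, U (σ c) c : S) : B), ?_, ?_⟩
  · have h1 := congrArg (Subtype.val) (sum_prodU U row colsum)
    rw [AddSubmonoidClass.coe_finsetSum] at h1
    exact h1
  · intro a b σ
    have h1 := mul_prodU U idem col a b σ
    have h2 := congrArg (Subtype.val) h1
    have h3 : (∏ c, U (σ c) c : S) * U a b = if σ b = a then ∏ c, U (σ c) c else 0 := by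
      rw [mul_comm, h1]
    have h4 := congrArg (Subtype.val) h3
    constructor
    · refine Eq.trans h2 ?_
      split_ifs <;> rfl
    · refine Eq.trans h4 ?_
      split_ifs <;> rfl

/-- The main consequence of commutativity: the projections attached to permutations. -/
theorem q_props {u : Matrix V V B} (hu : IsMagic u) {q : Equiv.Perm V → B} (hsum : ∑ σ, q σ = 1)
    (hq : ∀ a b σ, u a b * q σ = (if σ b = a then q σ else 0) ∧
        q σ * u a b = if σ b = a then q σ else 0) :
    (∀ σ τ, q σ * q τ = if σ = τ then q σ else 0) ∧ (∀ σ, star (q σ) = q σ) ∧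
      ∀ a b, ∑ σ, (if σ b = a then q σ else 0) = u a b := by
  have h0 : ∀ σ τ, σ ≠ τ → q σ * q τ = 0 := by
    intro σ τ hne
    have h1 : ∃ b, σ b ≠ τ b := by
      by_contra h
      push Not at h
      exact hne (Equiv.ext h)
    obtain ⟨b, hb⟩ := h1
    have h2 := (hq (σ b) b σ).2
    rw [if_pos rfl] at h2
    have h3 := (hq (σ b) b τ).1
    rw [if_neg (Ne.symm hb)] at h3
    rw [← h2, mul_assoc, h3, mul_zero]
  have h1 : ∀ σ, q σ * q σ = q σ := by
    intro σ
    have h2 : q σ * ∑ τ, q τ = q σ := by rw [hsum, mul_one]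
    rw [mul_sum, sum_eq_single σ] at h2
    · exact h2
    · intro τ _ hτ; exact h0 σ τ (Ne.symm hτ)
    · intro h; exact absurd (mem_univ _) h
  refine ⟨?_, ?_, ?_⟩
  · intro σ τ
    split_ifs with h
    · subst h; exact h1 σ
    · exact h0 σ τ h
  · intro σ
    have h2 : ∀ τ, τ ≠ σ → q τ * star (q σ) = 0 := by
      intro τ hne
      have h3 : ∃ b, τ b ≠ σ b := by
        by_contra h
        push Not at h
        exact hne (Equiv.ext h)
      obtain ⟨b, hb⟩ := h3
      have h4 := (hq (τ b) b τ).2
      rw [if_pos rfl] at h4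
      have h5 := congrArg star (hq (τ b) b σ).2
      rw [if_neg (Ne.symm hb), star_mul, star_zero, (hu.1 _ _).1] at h5
      rw [← h4, mul_assoc, h5, mul_zero]
    have h3 : (∑ τ, q τ) * star (q σ) = star (q σ) := by rw [hsum, one_mul]
    rw [sum_mul, sum_eq_single σ] at h3
    · have h4 := congrArg star h3
      rw [star_mul, star_star] at h4
      rw [← h3, h4]
    · intro τ _ hτ; exact h2 τ hτ
    · intro h; exact absurd (mem_univ _) h
  · intro a b
    calc ∑ σ, (if σ b = a then q σ else 0) = ∑ σ, u a b * q σ :=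
          sum_congr rfl fun σ _ => ((hq a b σ).1).symm
      _ = u a b := by rw [← mul_sum, hsum, mul_one]

/-- The homomorphism given by the projections attached to permutations. -/
noncomputable def homOf (q : Equiv.Perm V → B) (hsum : ∑ σ, q σ = 1)
    (hq : ∀ σ τ, q σ * q τ = if σ = τ then q σ else 0) (hstar : ∀ σ, star (q σ) = q σ) :
    (Equiv.Perm V → ℂ) →⋆ₐ[ℂ] B where
  toFun f := ∑ σ, f σ • q σ
  map_one' := by simp [hsum]
  map_zero' := by simp
  map_add' := by
    intro f g
    simp only [Pi.add_apply, add_smul, sum_add_distrib]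
  map_mul' := by
    intro f g
    rw [sum_mul]
    refine sum_congr rfl fun σ _ => ?_
    rw [mul_sum, sum_eq_single σ]
    · rw [smul_mul_smul_comm, hq, if_pos rfl, Pi.mul_apply]
    · intro τ _ hτ
      rw [smul_mul_smul_comm, hq, if_neg (Ne.symm hτ), smul_zero]
    · intro h; exact absurd (mem_univ _) h
  commutes' := by
    intro c
    simp only [Pi.algebraMap_apply, Algebra.algebraMap_self, RingHom.id_apply]
    rw [← smul_sum, hsum, Algebra.algebraMap_eq_smul_one]
  map_star' := by
    intro f
    rw [star_sum]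
    refine sum_congr rfl fun σ _ => ?_
    rw [star_smul, hstar, Pi.star_apply]

theorem homOf_apply (q : Equiv.Perm V → B) (hsum : ∑ σ, q σ = 1)
    (hq : ∀ σ τ, q σ * q τ = if σ = τ then q σ else 0) (hstar : ∀ σ, star (q σ) = q σ)
    (f : Equiv.Perm V → ℂ) : homOf q hsum hq hstar f = ∑ σ, f σ • q σ := rfl

theorem edge_q {E : Type} [Fintype E] [DecidableEq E] {s : E → Finset V} {u : Matrix V V B}
    {w : Matrix E E B} (hw : IsMagic w) (h : inc B s * w = u * inc B s)
    {q : Equiv.Perm V → B}
    (hq : ∀ a b σ, u a b * q σ = (if σ b = a then q σ else 0) ∧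
        q σ * u a b = if σ b = a then q σ else 0) (e f : E) (σ : Equiv.Perm V)
    (hne : (s f).map σ.toEmbedding ≠ s e) : w e f * q σ = 0 := by
  have h1 : ∀ a, (∑ b ∈ s f, u a b) * q σ = if a ∈ (s f).map σ.toEmbedding then q σ else 0 := by
    intro a
    rw [sum_mul]
    have h2 : ∀ b ∈ s f, u a b * q σ = if b = σ.symm a then q σ else 0 := by
      intro b _
      rw [(hq a b σ).1]
      congr 1
      rw [eq_iff_iff]
      constructor
      · rintro rfl; simp
      · rintro rfl; simp
    rw [sum_congr rfl h2, sum_ite_eq']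
    congr 1
    rw [eq_iff_iff, mem_map_equiv]
  have h2 : ∃ a, ¬ (a ∈ (s f).map σ.toEmbedding ↔ a ∈ s e) := by
    by_contra hcon
    push Not at hcon
    exact hne (Finset.ext hcon)
  obtain ⟨a, ha⟩ := h2
  have h3 := edge_mul hw h a e f
  by_cases hae : a ∈ s e
  · have ham : a ∉ (s f).map σ.toEmbedding := fun h' => ha ⟨fun _ => hae, fun _ => h'⟩
    rw [if_pos hae] at h3
    rw [← h3, mul_assoc, h1 a, if_neg ham, mul_zero]
  · have ham : a ∈ (s f).map σ.toEmbedding := by
      by_contra h'
      exact ha ⟨fun h'' => absurd h'' h', fun h'' => absurd h'' hae⟩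
    have h4 := h1 a
    rw [if_pos ham] at h4
    rw [if_neg hae] at h3
    rw [← h4, ← mul_assoc, h3, zero_mul]

theorem edge_eq {u : Matrix V V B} {w : Matrix (Finset V × Finset V) (Finset V × Finset V) B}
    (h : IsQAut (src V) (rng V) u w) {q : Equiv.Perm V → B} (hsum : ∑ σ, q σ = 1)
    (hq : ∀ a b σ, u a b * q σ = (if σ b = a then q σ else 0) ∧
        q σ * u a b = if σ b = a then q σ else 0) (e f : Finset V × Finset V) :
    w e f = ∑ σ, if actE σ f = e then q σ else 0 := by
  have h0 : ∀ (e f : Finset V × Finset V) (σ : Equiv.Perm V), actE σ f ≠ e → w e f * q σ = 0 := by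
    intro e f σ hne
    by_cases h1 : (src V f).map σ.toEmbedding = src V e
    · have h2 : (rng V f).map σ.toEmbedding ≠ rng V e := fun h2 => hne (Prod.ext h1 h2)
      exact edge_q h.2.1 h.2.2.2 hq e f σ h2
    · exact edge_q h.2.1 h.2.2.1 hq e f σ h1
  have h1 : ∀ σ, w (actE σ f) f * q σ = q σ := by
    intro σ
    have h2 : (∑ e, w e f) * q σ = q σ := by rw [h.2.1.2.2 f, one_mul]
    rw [sum_mul, sum_eq_single (actE σ f)] at h2
    · exact h2
    · intro e _ he; exact h0 e f σ (Ne.symm he)
    · intro h'; exact absurd (mem_univ _) h'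
  calc w e f = w e f * ∑ σ, q σ := by rw [hsum, mul_one]
    _ = ∑ σ, w e f * q σ := by rw [mul_sum]
    _ = _ := by
        refine sum_congr rfl fun σ _ => ?_
        split_ifs with hσ
        · rw [← hσ]; exact h1 σ
        · exact h0 e f σ hσ

end Main

/-! ### The classical pair -/

section Classical

variable {V : Type} [Fintype V] [DecidableEq V]

theorem magic_clV : IsMagic (clV V) := by
  refine ⟨fun i j => ⟨?_, ?_⟩, fun i => ?_, fun j => ?_⟩
  · funext σ
    simp only [clV, Pi.star_apply]
    split_ifs <;> simp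
  · funext σ
    simp only [clV, Pi.mul_apply]
    split_ifs <;> simp
  · funext σ
    rw [Finset.sum_apply]
    simp only [clV, Pi.one_apply]
    rw [sum_eq_single (σ.symm i)]
    · simp
    · intro b _ hb
      rw [if_neg]
      intro h
      exact hb (by rw [← h]; simp)
    · intro h; exact absurd (mem_univ _) h
  · funext σ
    rw [Finset.sum_apply]
    simp [clV]

omit [Fintype V] [DecidableEq V] in
theorem actE_bij (σ : Equiv.Perm V) (e : Finset V × Finset V) :
    actE σ (actE σ.symm e) = e := by
  unfold actE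
  simp only [Finset.map_map]
  have h : (σ.symm.toEmbedding.trans σ.toEmbedding) = Function.Embedding.refl V := by
    ext x; simp
  rw [h, map_refl, map_refl]

omit [Fintype V] [DecidableEq V] in
theorem actE_bij' (σ : Equiv.Perm V) (e : Finset V × Finset V) :
    actE σ.symm (actE σ e) = e := actE_bij σ.symm e

theorem magic_clE : IsMagic (clE V) := by
  refine ⟨fun i j => ⟨?_, ?_⟩, fun i => ?_, fun j => ?_⟩
  · funext σ
    simp only [clE, Pi.star_apply]
    split_ifs <;> simp
  · funext σ
    simp only [clE, Pi.mul_apply]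
    split_ifs <;> simp
  · funext σ
    rw [Finset.sum_apply]
    simp only [clE, Pi.one_apply]
    rw [sum_eq_single (actE σ.symm i)]
    · rw [if_pos (actE_bij σ i)]
    · intro b _ hb
      rw [if_neg]
      intro h
      exact hb (by rw [← h, actE_bij'])
    · intro h; exact absurd (mem_univ _) h
  · funext σ
    rw [Finset.sum_apply]
    simp [clE]

theorem inc_cl (s : Finset V × Finset V → Finset V)
    (hs : ∀ (σ : Equiv.Perm V) f, s (actE σ f) = (s f).map σ.toEmbedding) :
    inc (Equiv.Perm V → ℂ) s * clE V = clV V * inc (Equiv.Perm V → ℂ) s := by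
  ext a f σ
  rw [Matrix.mul_apply, Matrix.mul_apply, Finset.sum_apply, Finset.sum_apply]
  have h1 : ∑ e, (inc (Equiv.Perm V → ℂ) s a e * clE V e f) σ =
      if a ∈ s (actE σ f) then 1 else 0 := by
    rw [sum_eq_single (actE σ f)]
    · simp only [inc, Matrix.of_apply, Pi.mul_apply, clE, if_true, mul_one]
      split_ifs <;> rfl
    · intro e _ he
      simp only [Pi.mul_apply, clE]
      rw [if_neg (Ne.symm he), mul_zero]
    · intro h; exact absurd (mem_univ _) h
  have h2 : ∑ b, (clV V a b * inc (Equiv.Perm V → ℂ) s b f) σ =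
      if σ.symm a ∈ s f then 1 else 0 := by
    rw [sum_eq_single (σ.symm a)]
    · simp only [inc, Matrix.of_apply, Pi.mul_apply, clV, Equiv.apply_symm_apply, if_true, one_mul]
      split_ifs <;> rfl
    · intro b _ hb
      simp only [Pi.mul_apply, clV]
      rw [if_neg, zero_mul]
      intro h
      exact hb (by rw [← h]; simp)
    · intro h; exact absurd (mem_univ _) h
  rw [h1, h2, hs]
  congr 1
  rw [eq_iff_iff, mem_map_equiv]

theorem isQAut_cl : IsQAut (src V) (rng V) (clV V) (clE V) :=
  ⟨magic_clV, magic_clE, inc_cl _ fun _ _ => rfl, inc_cl _ fun _ _ => rfl⟩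

end Classical

theorem universal (V : Type) [Fintype V] [DecidableEq V] :
    IsUniversalQAut.{0, v} (src V) (rng V) (Equiv.Perm V → ℂ) (clV V) (clE V) := by
  refine ⟨isQAut_cl, fun B _ u w h => ?_⟩
  obtain ⟨q, hsum, hq⟩ := exists_q h.1 (entries_commute h)
  obtain ⟨hqq, hstar, hu⟩ := q_props h.1 hsum hq
  refine ⟨homOf q hsum hqq hstar, ⟨?_, ?_⟩, ?_⟩
  · intro a b
    rw [homOf_apply, ← hu a b]
    refine sum_congr rfl fun σ _ => ?_
    simp only [clV]
    split_ifs <;> simp
  · intro e f
    rw [homOf_apply, edge_eq h hsum hq e f]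
    refine sum_congr rfl fun σ _ => ?_
    simp only [clE]
    split_ifs <;> simp
  · rintro φ ⟨hφ, -⟩
    have hdelta : ∀ σ : Equiv.Perm V, (Pi.single σ 1 : Equiv.Perm V → ℂ) =
        ∏ b, clV V (σ b) b := by
      intro σ
      funext τ
      rw [Finset.prod_apply]
      by_cases hτ : τ = σ
      · subst hτ
        simp [clV]
      · rw [Pi.single_eq_of_ne hτ]
        have h3 : ∃ b, τ b ≠ σ b := by
          by_contra h'
          push Not at h'
          exact hτ (Equiv.ext h')
        obtain ⟨b, hb⟩ := h3
        refine (prod_eq_zero (mem_univ b) ?_).symm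
        simp [clV, hb]
    have key : ∀ (φ ψ : (Equiv.Perm V → ℂ) →⋆ₐ[ℂ] B), (∀ i j, φ (clV V i j) = ψ (clV V i j)) →
        φ = ψ := by
      intro φ ψ hφψ
      have hmem : ∀ f, f ∈ AlgHom.equalizer (φ : (Equiv.Perm V → ℂ) →ₐ[ℂ] B)
          (ψ : (Equiv.Perm V → ℂ) →ₐ[ℂ] B) := by
        intro f
        have hf : f = ∑ σ, f σ • (Pi.single σ 1 : Equiv.Perm V → ℂ) := pi_eq_sum_univ' f
        rw [hf]
        refine sum_mem fun σ _ => Subalgebra.smul_mem _ ?_ _
        rw [hdelta σ]
        exact prod_mem fun b _ => hφψ _ _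
      ext f
      exact hmem f
    apply key
    intro a b
    rw [hφ a b, homOf_apply, ← hu a b]
    refine sum_congr rfl fun σ _ => ?_
    simp only [clV]
    split_ifs <;> simp

/-! ### Four or more vertices -/

/-- A magic unitary built from an involution and invariant projections. -/
def blockMagic {V : Type} [DecidableEq V] {B : Type v} [Ring B] (τ : Equiv.Perm V) (P : V → B) :
    Matrix V V B :=
  fun i j => (if i = j then P j else 0) + if i = τ j then 1 - P j else 0

theorem blockMagic_isMagic {V : Type} [Fintype V] [DecidableEq V] {B : Type v} [Ring B]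
    [StarRing B] (τ : Equiv.Perm V) (hτ : ∀ j, τ (τ j) = j) (P : V → B)
    (hP : ∀ j, star (P j) = P j ∧ P j * P j = P j) (hPτ : ∀ j, P (τ j) = P j) :
    IsMagic (blockMagic τ P) := by
  refine ⟨fun i j => ?_, fun i => ?_, fun j => ?_⟩
  · have h1 : star (1 - P j) = 1 - P j ∧ (1 - P j) * (1 - P j) = 1 - P j := by
      refine ⟨by rw [star_sub, star_one, (hP j).1], ?_⟩
      rw [mul_sub, sub_mul, mul_one, sub_mul, one_mul, (hP j).2]
      simp
    unfold blockMagic
    by_cases hij : i = j
    · by_cases hiτ : i = τ j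
      · rw [if_pos hij, if_pos hiτ]
        simp
      · rw [if_pos hij, if_neg hiτ, add_zero]
        exact hP j
    · by_cases hiτ : i = τ j
      · rw [if_neg hij, if_pos hiτ, zero_add]
        exact h1
      · rw [if_neg hij, if_neg hiτ]
        simp
  · unfold blockMagic
    rw [sum_add_distrib, sum_ite_eq univ i]
    have h1 : ∀ j, (if i = τ j then 1 - P j else 0) = if j = τ i then 1 - P j else 0 := by
      intro j
      congr 1
      rw [eq_iff_iff]
      constructor
      · rintro rfl; rw [hτ]
      · rintro rfl; rw [hτ]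
    simp only [h1, sum_ite_eq', mem_univ, if_true, hPτ]
    abel
  · unfold blockMagic
    rw [sum_add_distrib]
    simp

/-- A projection of the two by two matrices. -/
noncomputable def pp : CStarMatrix (Fin 2) (Fin 2) ℂ := CStarMatrix.ofMatrix !![1, 0; 0, 0]

/-- A second projection of the two by two matrices. -/
noncomputable def qq : CStarMatrix (Fin 2) (Fin 2) ℂ :=
  CStarMatrix.ofMatrix !![1 / 2, 1 / 2; 1 / 2, 1 / 2]

theorem pp_proj : star pp = pp ∧ pp * pp = pp := by
  constructor
  · ext i j
    fin_cases i <;> fin_cases j <;> simp [pp, CStarMatrix.star_apply]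
  · ext i j
    fin_cases i <;> fin_cases j <;> simp [pp, CStarMatrix.mul_apply, Fin.sum_univ_two]

theorem qq_proj : star qq = qq ∧ qq * qq = qq := by
  constructor
  · ext i j
    fin_cases i <;> fin_cases j <;> simp [qq, CStarMatrix.star_apply]
  · ext i j
    fin_cases i <;> fin_cases j <;>
      simp [qq, CStarMatrix.mul_apply, Fin.sum_univ_two] <;> norm_num

theorem pp_qq : pp * qq ≠ qq * pp := by
  intro h
  have h1 : (pp * qq) 0 1 = (qq * pp) 0 1 := by rw [h]
  rw [CStarMatrix.mul_apply, CStarMatrix.mul_apply, Fin.sum_univ_two, Fin.sum_univ_two] at h1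
  simp [pp, qq] at h1

theorem exists_noncomm (V : Type) [Fintype V] [DecidableEq V] (hV : 4 ≤ Fintype.card V) :
    ∃ (u : Matrix V V (CStarMatrix (Fin 2) (Fin 2) ℂ)) (a b : V), IsMagic u ∧
      u a a * u b b ≠ u b b * u a a := by
  obtain ⟨e⟩ : Nonempty (Fin 4 ↪ V) := by
    rw [Function.Embedding.nonempty_iff_card_le]
    simpa using hV
  have he : ∀ i j, i ≠ j → e i ≠ e j := fun i j h h' => h (e.injective h')
  let τ : Equiv.Perm V := Equiv.swap (e 0) (e 1) * Equiv.swap (e 2) (e 3)
  let P : V → CStarMatrix (Fin 2) (Fin 2) ℂ := fun j =>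
    if j = e 0 ∨ j = e 1 then pp else if j = e 2 ∨ j = e 3 then qq else 1
  have t0 : τ (e 0) = e 1 := by
    show Equiv.swap (e 0) (e 1) (Equiv.swap (e 2) (e 3) (e 0)) = e 1
    rw [Equiv.swap_apply_of_ne_of_ne (he 0 2 (by decide)) (he 0 3 (by decide)),
      Equiv.swap_apply_left]
  have t1 : τ (e 1) = e 0 := by
    show Equiv.swap (e 0) (e 1) (Equiv.swap (e 2) (e 3) (e 1)) = e 0
    rw [Equiv.swap_apply_of_ne_of_ne (he 1 2 (by decide)) (he 1 3 (by decide)),
      Equiv.swap_apply_right]
  have t2 : τ (e 2) = e 3 := by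
    show Equiv.swap (e 0) (e 1) (Equiv.swap (e 2) (e 3) (e 2)) = e 3
    rw [Equiv.swap_apply_left,
      Equiv.swap_apply_of_ne_of_ne (he 3 0 (by decide)) (he 3 1 (by decide))]
  have t3 : τ (e 3) = e 2 := by
    show Equiv.swap (e 0) (e 1) (Equiv.swap (e 2) (e 3) (e 3)) = e 2
    rw [Equiv.swap_apply_right,
      Equiv.swap_apply_of_ne_of_ne (he 2 0 (by decide)) (he 2 1 (by decide))]
  have tx : ∀ x, x ≠ e 0 → x ≠ e 1 → x ≠ e 2 → x ≠ e 3 → τ x = x := by
    intro x h0 h1 h2 h3
    show Equiv.swap (e 0) (e 1) (Equiv.swap (e 2) (e 3) x) = x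
    rw [Equiv.swap_apply_of_ne_of_ne h2 h3, Equiv.swap_apply_of_ne_of_ne h0 h1]
  have hcases : ∀ x, x = e 0 ∨ x = e 1 ∨ x = e 2 ∨ x = e 3 ∨
      (x ≠ e 0 ∧ x ≠ e 1 ∧ x ≠ e 2 ∧ x ≠ e 3) := by
    intro x
    by_cases h0 : x = e 0
    · exact Or.inl h0
    by_cases h1 : x = e 1
    · exact Or.inr (Or.inl h1)
    by_cases h2 : x = e 2
    · exact Or.inr (Or.inr (Or.inl h2))
    by_cases h3 : x = e 3
    · exact Or.inr (Or.inr (Or.inr (Or.inl h3)))
    exact Or.inr (Or.inr (Or.inr (Or.inr ⟨h0, h1, h2, h3⟩)))
  have p0 : P (e 0) = pp := by simp [P]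
  have p1 : P (e 1) = pp := by simp [P]
  have p2 : P (e 2) = qq := by
    simp [P, he 2 0 (by decide), he 2 1 (by decide)]
  have p3 : P (e 3) = qq := by
    simp [P, he 3 0 (by decide), he 3 1 (by decide)]
  have hττ : ∀ j, τ (τ j) = j := by
    intro j
    rcases hcases j with h | h | h | h | h
    · rw [h, t0, t1]
    · rw [h, t1, t0]
    · rw [h, t2, t3]
    · rw [h, t3, t2]
    · rw [tx j h.1 h.2.1 h.2.2.1 h.2.2.2, tx j h.1 h.2.1 h.2.2.1 h.2.2.2]
  have hPτ : ∀ j, P (τ j) = P j := by
    intro j
    rcases hcases j with h | h | h | h | h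
    · rw [h, t0, p0, p1]
    · rw [h, t1, p0, p1]
    · rw [h, t2, p2, p3]
    · rw [h, t3, p2, p3]
    · rw [tx j h.1 h.2.1 h.2.2.1 h.2.2.2]
  have hPp : ∀ j, star (P j) = P j ∧ P j * P j = P j := by
    intro j
    simp only [P]
    split_ifs
    · exact pp_proj
    · exact qq_proj
    · simp
  refine ⟨blockMagic τ P, e 0, e 2, blockMagic_isMagic τ hττ P hPp hPτ, ?_⟩
  have h0 : blockMagic τ P (e 0) (e 0) = pp := by
    unfold blockMagic
    rw [if_pos rfl, t0, if_neg (he 0 1 (by decide)), add_zero, p0]
  have h2 : blockMagic τ P (e 2) (e 2) = qq := by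
    unfold blockMagic
    rw [if_pos rfl, t2, if_neg (he 2 3 (by decide)), add_zero, p2]
  rw [h0, h2]
  exact pp_qq

open scoped ComplexOrder in
/-- The algebra of the quantum automorphism group of the complete hypergraph on `V` is the
algebra of functions on the symmetric group of `V` (so the quantum automorphism group is the
classical symmetric group); and if `V` has at least four elements then the universal magic
unitary over `V` has no compatible magic unitary over the edges, so the quantum automorphism
group is a proper quantum subgroup of the quantum permutation group. -/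
theorem result (V : Type) [Fintype V] [DecidableEq V] :
    IsUniversalQAut.{0, v} (src V) (rng V) (Equiv.Perm V → ℂ) (clV V) (clE V) ∧
      (4 ≤ Fintype.card V → ∀ (C : Type u) [CStarAlgebra C] (m : Matrix V V C),
        IsUniversalMagic.{u, 0} C m → ¬ ∃ w, IsQAut (src V) (rng V) m w) := by
  refine ⟨universal V, ?_⟩
  intro hV C _ m hm
  rintro ⟨w, hw⟩
  obtain ⟨u', a, b, hu', hne⟩ := exists_noncomm V hV
  obtain ⟨φ, hφ, -⟩ := hm.2 _ u' hu'
  have h1 := congrArg φ (entries_commute hw a b a b)
  rw [map_mul, map_mul, hφ, hφ] at h1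
  exact hne h1

end Pool.Agent.Results.MP_8cf907_al.CompleteHypergraph
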